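import Pool.Agent.H71.ASF.StmtsM

set_option autoImplicit false

open TensorProduct

namespace ASF

universe u

namespace GTE

section basic

variable {A : Type u} [NonUnitalNonAssocRing A]

theorem asc_add1 (x x' y z : A) : asc (x + x') y z = asc x y z + asc x' y z := by
  simp only [asc, add_mul]; abel

theorem asc_add2 (x y y' z : A) : asc x (y + y') z = asc x y z + asc x y' z := by
  simp only [asc, mul_add, add_mul]; abel

theorem asc_add3 (x y z z' : A) : asc x y (z + z') = asc x y z + asc x y z' := by
  simp only [asc, mul_add]; abel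

theorem asc_zero1 (y z : A) : asc 0 y z = 0 := by simp [asc]
theorem asc_zero2 (x z : A) : asc x 0 z = 0 := by simp [asc]
theorem asc_zero3 (x y : A) : asc x y 0 = 0 := by simp [asc]

theorem asc_xxy [Alt A] (x y : A) : asc x x y = 0 := by
  rw [asc, Alt.left, sub_self]

theorem asc_yxx [Alt A] (x y : A) : asc y x x = 0 := by
  rw [asc, Alt.right, sub_self]

theorem asc_sk12 [Alt A] (x y z : A) : asc x y z + asc y x z = 0 := by
  have h := asc_xxy (x + y) z
  rw [asc_add1, asc_add2, asc_add2, asc_xxy, asc_xxy] at h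
  simpa using h

theorem asc_sk23 [Alt A] (x y z : A) : asc x y z + asc x z y = 0 := by
  have h := asc_yxx (y + z) x
  rw [asc_add2, asc_add3, asc_add3, asc_yxx, asc_yxx] at h
  simpa using h

end basic

section tens

variable (R : Type) [CommRing R] (A : Type u) [NonUnitalNonAssocRing A]

/-- the tensor product `R ⊗ A` -/
def TT : Type u := R ⊗[ℤ] A

noncomputable instance : NonUnitalNonAssocRing (TT R A) :=
  inferInstanceAs (NonUnitalNonAssocRing (R ⊗[ℤ] A))

noncomputable instance : Module R (TT R A) :=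
  inferInstanceAs (Module R (R ⊗[ℤ] A))

instance : IsScalarTower R (TT R A) (TT R A) :=
  inferInstanceAs (IsScalarTower R (R ⊗[ℤ] A) (R ⊗[ℤ] A))

instance : SMulCommClass R (TT R A) (TT R A) :=
  inferInstanceAs (SMulCommClass R (R ⊗[ℤ] A) (R ⊗[ℤ] A))

variable {R A}

/-- pure tensors -/
noncomputable def tm (r : R) (a : A) : TT R A := (r ⊗ₜ[ℤ] a : R ⊗[ℤ] A)

theorem tm_mul (r s : R) (a b : A) : tm r a * tm s b = tm (r * s) (a * b) :=
  Algebra.TensorProduct.tmul_mul_tmul r s a b

theorem tm_add (r : R) (a b : A) : tm r (a + b) = tm r a + tm r b :=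
  TensorProduct.tmul_add r a b

theorem tm_sub (r : R) (a b : A) : tm r (a - b) = tm r a - tm r b :=
  TensorProduct.tmul_sub r a b

theorem tm_zero (r : R) : tm r (0 : A) = 0 := TensorProduct.tmul_zero A r

theorem smul_tm (r s : R) (a : A) : r • tm s a = tm (r * s) a := rfl

/-- pure tensors as an additive map -/
noncomputable def tmH (R : Type) [CommRing R] (A : Type u) [NonUnitalNonAssocRing A] (r : R) :
    A →+ TT R A where
  toFun a := tm r a
  map_zero' := tm_zero r
  map_add' := tm_add r

theorem tm_sum {ι : Type} (S : Finset ι) (r : R) (F : ι → A) :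
    tm r (∑ k ∈ S, F k) = ∑ k ∈ S, tm r (F k) := map_sum (tmH R A r) F S

theorem ind {P : TT R A → Prop} (h0 : P 0) (ht : ∀ r a, P (tm r a))
    (ha : ∀ x y, P x → P y → P (x + y)) (x : TT R A) : P x :=
  TensorProduct.induction_on (motive := P) x h0 ht ha

theorem asc_tm (r s t : R) (a b c : A) :
    asc (tm r a) (tm s b) (tm t c) = tm (r * s * t) (asc a b c) := by
  simp only [asc, tm_mul, tm_sub, mul_assoc]

theorem sk12 [Alt A] (x y z : TT R A) : asc x y z + asc y x z = 0 := by
  induction x using ind with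
  | h0 => rw [asc_zero1, asc_zero2, add_zero]
  | ha x x' h h' =>
    rw [asc_add1, asc_add2]
    have : asc x y z + asc x' y z + (asc y x z + asc y x' z) =
      (asc x y z + asc y x z) + (asc x' y z + asc y x' z) := by abel
    rw [this, h, h', add_zero]
  | ht r a =>
    induction y using ind with
    | h0 => rw [asc_zero1, asc_zero2, add_zero]
    | ha y y' h h' =>
      rw [asc_add1, asc_add2]
      have : asc (tm r a) y z + asc (tm r a) y' z + (asc y (tm r a) z + asc y' (tm r a) z) =
        (asc (tm r a) y z + asc y (tm r a) z) + (asc (tm r a) y' z + asc y' (tm r a) z) := by abel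
      rw [this, h, h', add_zero]
    | ht s b =>
      induction z using ind with
      | h0 => rw [asc_zero3, asc_zero3, add_zero]
      | ha z z' h h' =>
        rw [asc_add3, asc_add3]
        have : asc (tm r a) (tm s b) z + asc (tm r a) (tm s b) z' +
          (asc (tm s b) (tm r a) z + asc (tm s b) (tm r a) z') =
          (asc (tm r a) (tm s b) z + asc (tm s b) (tm r a) z) +
          (asc (tm r a) (tm s b) z' + asc (tm s b) (tm r a) z') := by abel
        rw [this, h, h', add_zero]
      | ht t c => rw [asc_tm, asc_tm, mul_comm s r, ← tm_add, asc_sk12, tm_zero]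

theorem sk23 [Alt A] (x y z : TT R A) : asc x y z + asc x z y = 0 := by
  induction x using ind with
  | h0 => rw [asc_zero1, asc_zero1, add_zero]
  | ha x x' h h' =>
    rw [asc_add1, asc_add1]
    have : asc x y z + asc x' y z + (asc x z y + asc x' z y) =
      (asc x y z + asc x z y) + (asc x' y z + asc x' z y) := by abel
    rw [this, h, h', add_zero]
  | ht r a =>
    induction y using ind with
    | h0 => rw [asc_zero2, asc_zero3, add_zero]
    | ha y y' h h' =>
      rw [asc_add2, asc_add3]
      have : asc (tm r a) y z + asc (tm r a) y' z + (asc (tm r a) z y + asc (tm r a) z y') =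
        (asc (tm r a) y z + asc (tm r a) z y) + (asc (tm r a) y' z + asc (tm r a) z y') := by abel
      rw [this, h, h', add_zero]
    | ht s b =>
      induction z using ind with
      | h0 => rw [asc_zero2, asc_zero3, add_zero]
      | ha z z' h h' =>
        rw [asc_add2, asc_add3]
        have : asc (tm r a) (tm s b) z + asc (tm r a) (tm s b) z' +
          (asc (tm r a) z (tm s b) + asc (tm r a) z' (tm s b)) =
          (asc (tm r a) (tm s b) z + asc (tm r a) z (tm s b)) +
          (asc (tm r a) (tm s b) z' + asc (tm r a) z' (tm s b)) := by abel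
        rw [this, h, h', add_zero]
      | ht t c => rw [asc_tm, asc_tm, mul_right_comm, ← tm_add, asc_sk23, tm_zero]

theorem xxy [Alt A] (x z : TT R A) : asc x x z = 0 := by
  induction x using ind with
  | h0 => rw [asc_zero1]
  | ha x x' h h' =>
    rw [asc_add1, asc_add2, asc_add2, h, h', zero_add, add_zero]
    exact sk12 x x' z
  | ht r a =>
    induction z using ind with
    | h0 => rw [asc_zero3]
    | ha z z' h h' => rw [asc_add3, h, h', add_zero]
    | ht t c => rw [asc_tm, asc_xxy, tm_zero]

theorem yxx [Alt A] (x z : TT R A) : asc z x x = 0 := by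
  induction x using ind with
  | h0 => rw [asc_zero2]
  | ha x x' h h' =>
    rw [asc_add2, asc_add3, asc_add3, h, h', zero_add, add_zero]
    exact sk23 z x x'
  | ht r a =>
    induction z using ind with
    | h0 => rw [asc_zero1]
    | ha z z' h h' => rw [asc_add1, h, h', add_zero]
    | ht t c => rw [asc_tm, asc_yxx, tm_zero]

theorem alt [Alt A] : Alt (TT R A) where
  left x y := (sub_eq_zero.1 (xxy x y)).symm
  right x y := sub_eq_zero.1 (yxx x y)

theorem tor (q : ℕ) (h : ∀ x : A, (6 * q) • x = 0 → x = 0) (m : ℕ) (x : A)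
    (hx : (6 * q) ^ m • x = 0) : x = 0 := by
  induction m generalizing x with
  | zero => simpa using hx
  | succ m ih =>
    apply h
    apply ih
    rw [← mul_smul, ← pow_succ]
    exact hx

/-- the map `r ⊗ a ↦ f r • a` to the localization -/
noncomputable def psi (q : ℕ) (f : R →+ Localization.Away ((6 * q : ℕ) : ℤ)) :
    TT R A →+ LocalizedModule (Submonoid.powers ((6 * q : ℕ) : ℤ)) A :=
  TensorProduct.liftAddHom (R := ℤ) (M := R) (N := A)
    { toFun := fun r =>
        { toFun := fun a => f r • LocalizedModule.mkLinearMap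
            (Submonoid.powers ((6 * q : ℕ) : ℤ)) A a
          map_zero' := by rw [map_zero, smul_zero]
          map_add' := fun a b => by rw [map_add, smul_add] }
      map_zero' := by
        ext a
        change f 0 • LocalizedModule.mkLinearMap (Submonoid.powers ((6 * q : ℕ) : ℤ)) A a = 0
        rw [map_zero]
        exact zero_smul (Localization.Away ((6 * q : ℕ) : ℤ))
          (LocalizedModule.mkLinearMap (Submonoid.powers ((6 * q : ℕ) : ℤ)) A a)
      map_add' := fun r s => by
        ext a
        simp [add_smul] }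
    (fun n r a => by
      simp only [AddMonoidHom.coe_mk, ZeroHom.coe_mk]
      rw [map_zsmul, map_zsmul, smul_assoc, smul_comm])

theorem psi_tm (q : ℕ) (f : R →+ Localization.Away ((6 * q : ℕ) : ℤ)) (r : R) (a : A) :
    psi q f (tm r a) = f r • LocalizedModule.mkLinearMap
      (Submonoid.powers ((6 * q : ℕ) : ℤ)) A a := rfl

theorem inj (q : ℕ) (f : R →+ Localization.Away ((6 * q : ℕ) : ℤ)) (hf : f 1 = 1)
    (h : ∀ x : A, (6 * q) • x = 0 → x = 0) (a : A) (ha : tm (1 : R) a = 0) : a = 0 := by
  have h1 := congrArg (psi q f) ha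
  rw [psi_tm, hf, one_smul, map_zero] at h1
  rw [LocalizedModule.mkLinearMap_apply, ← LocalizedModule.zero_mk 1, LocalizedModule.mk_eq] at h1
  obtain ⟨⟨c, ⟨m, hm⟩⟩, hc⟩ := h1
  simp only [one_smul, smul_zero] at hc
  subst hm
  refine tor q h m a ?_
  rw [← hc]
  change _ = ((6 * q : ℕ) : ℤ) ^ m • a
  rw [← natCast_zsmul]
  push_cast
  rfl

/-- the operator `1 ⊗ g` -/
noncomputable def sg (R : Type) [CommRing R] {A : Type u} [NonUnitalNonAssocRing A] (g : A →+ A) :
    TT R A →ₗ[R] TT R A :=
  (TensorProduct.AlgebraTensorModule.map (LinearMap.id) g.toIntLinearMap :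
    (R ⊗[ℤ] A) →ₗ[R] (R ⊗[ℤ] A))

theorem sg_tm (g : A →+ A) (r : R) (a : A) : sg R g (tm r a) = tm r (g a) := rfl

theorem sg_mul (g : A →+ A) (hg : ∀ x y, g (x * y) = g x * g y) (x y : TT R A) :
    sg R g (x * y) = sg R g x * sg R g y := by
  induction x using ind with
  | h0 => rw [zero_mul, map_zero, zero_mul]
  | ha x x' h h' => rw [add_mul, map_add, h, h', map_add, add_mul]
  | ht r a =>
    induction y using ind with
    | h0 => rw [mul_zero, map_zero, mul_zero]
    | ha x x' h h' => rw [mul_add, map_add, h, h', map_add, mul_add]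
    | ht s b => rw [tm_mul, sg_tm, sg_tm, sg_tm, hg, tm_mul]

theorem sg_pow_tm (g : A →+ A) (r : R) (a : A) (k : ℕ) :
    (sg R g ^ k) (tm r a) = tm r (g^[k] a) := by
  induction k generalizing a with
  | zero => rfl
  | succ k ih => rw [pow_succ, Module.End.mul_apply, sg_tm, ih, Function.iterate_succ_apply]

theorem sg_pow_q (g : A →+ A) (q : ℕ) (hg : ∀ x, g^[q] x = x) (x : TT R A) :
    (sg R g ^ q) x = x := by
  induction x using ind with
  | h0 => rw [map_zero]
  | ha x x' h h' => rw [map_add, h, h']
  | ht r a => rw [sg_pow_tm, hg]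

/-- the graded pieces -/
noncomputable def gr (q : ℕ) (ζ : R) (g : A →+ A) (i : ZMod q) : Submodule R (TT R A) :=
  LinearMap.ker (sg R g - ζ ^ i.val • LinearMap.id)

theorem mem_gr (q : ℕ) (ζ : R) (g : A →+ A) (i : ZMod q) (x : TT R A) :
    x ∈ gr q ζ g i ↔ sg R g x = ζ ^ i.val • x := by
  rw [gr, LinearMap.mem_ker, LinearMap.sub_apply, sub_eq_zero]
  rfl

theorem gr_mul (q : ℕ) [NeZero q] (ζ : R) (hζ : ζ ^ q = 1) (g : A →+ A)
    (hg : ∀ x y, g (x * y) = g x * g y) (i j : ZMod q) (x y : TT R A) (hx : x ∈ gr q ζ g i)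
    (hy : y ∈ gr q ζ g j) : x * y ∈ gr q ζ g (i + j) := by
  rw [mem_gr] at *
  rw [sg_mul g hg, hx, hy, smul_mul_assoc, mul_smul_comm, smul_smul, ← pow_add, ZMod.val_add]
  congr 1
  conv_lhs => rw [← Nat.mod_add_div (i.val + j.val) q]
  rw [pow_add, pow_mul, hζ, one_pow, mul_one]

/-- `Σ_k ζ^{-ik} σ^k` -/
noncomputable def pr (q : ℕ) (ζ : R) (g : A →+ A) (i : ℕ) : (TT R A) →ₗ[R] (TT R A) :=
  ∑ k ∈ Finset.range q, ζ ^ ((q - i) * k) • sg R g ^ k

theorem pr_apply (q : ℕ) (ζ : R) (g : A →+ A) (i : ℕ) (x : TT R A) :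
    pr q ζ g i x = ∑ k ∈ Finset.range q, ζ ^ ((q - i) * k) • (sg R g ^ k) x := by
  rw [pr, LinearMap.sum_apply]
  rfl

theorem sum_shift {M : Type*} [AddCommGroup M] (q : ℕ) (F : ℕ → M) (h : F q = F 0) :
    ∑ k ∈ Finset.range q, F (k + 1) = ∑ k ∈ Finset.range q, F k := by
  have h1 := Finset.sum_range_succ' F q
  have h2 := Finset.sum_range_succ F q
  rw [h1, h] at h2
  exact add_right_cancel h2

theorem pr_mem (q : ℕ) [NeZero q] (ζ : R) (hζ : ζ ^ q = 1) (g : A →+ A)
    (hq : ∀ x, g^[q] x = x) (i : ZMod q) (x : TT R A) :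
    pr q ζ g i.val x ∈ gr q ζ g i := by
  rw [mem_gr, pr_apply, map_sum, Finset.smul_sum]
  have hi : i.val < q := ZMod.val_lt i
  rw [← sum_shift q (fun k => ζ ^ i.val • ζ ^ ((q - i.val) * k) • (sg R g ^ k) x)]
  · refine Finset.sum_congr rfl fun k _ => ?_
    rw [map_smul, pow_succ' (sg R g) k, Module.End.mul_apply, smul_smul, ← pow_add]
    congr 1
    have : i.val + (q - i.val) * (k + 1) = (q - i.val) * k + q := by
      rw [mul_add, mul_one]
      omega
    rw [this, pow_add, hζ, mul_one]
  · simp only [mul_zero, pow_zero, one_smul, Module.End.one_apply]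
    rw [sg_pow_q g q hq, mul_comm, pow_mul, hζ, one_pow, one_smul]

theorem sum_pr (q : ℕ) (hq0 : 0 < q) (ζ : R) (hζ : ζ ^ q = 1) (g : A →+ A)
    (hs : ∀ i : ℕ, ¬ q ∣ i → ∑ k ∈ Finset.range q, ζ ^ (i * k) = 0)
    (x : TT R A) : ∑ i ∈ Finset.range q, pr q ζ g i x = (q : R) • x := by
  simp only [pr_apply]
  rw [Finset.sum_comm]
  have h1 : ∀ k ∈ Finset.range q, ∑ i ∈ Finset.range q, ζ ^ ((q - i) * k) • (sg R g ^ k) x =
      if k = 0 then (q : R) • x else 0 := by
    intro k hk
    rw [Finset.mem_range] at hk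
    rw [← Finset.sum_smul]
    split_ifs with h0
    · subst h0
      simp
    · have h2 : ∑ i ∈ Finset.range q, ζ ^ ((q - i) * k) = 0 := by
        rw [← Finset.sum_range_reflect]
        have h3 : ∀ i ∈ Finset.range q, ζ ^ ((q - (q - 1 - i)) * k) = ζ ^ (k * (i + 1)) := by
          intro i hi
          rw [Finset.mem_range] at hi
          congr 1
          rw [mul_comm]
          congr 1
          omega
        rw [Finset.sum_congr rfl h3, sum_shift q (fun i => ζ ^ (k * i))]
        · exact hs k (fun hd => by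
            have := Nat.le_of_dvd (Nat.pos_of_ne_zero h0) hd
            omega)
        · simp only [mul_zero, pow_zero]
          rw [mul_comm, pow_mul, hζ, one_pow]
      rw [h2, zero_smul]
  rw [Finset.sum_congr rfl h1, Finset.sum_ite_eq' (Finset.range q) 0]
  rw [if_pos (Finset.mem_range.2 hq0)]

end tens

end GTE

open GTE in
theorem gte (h1 : GRIStmt) : GTEStmt.{u} := by
  intro q hq A _ _ g hadd hmul hgq htor
  have : NeZero q := ⟨hq.ne_zero⟩
  obtain ⟨R, _, ζ, f, h6, hqu, hζ, hs, hf⟩ := h1 q hq
  let g' : A →+ A := AddMonoidHom.mk' g hadd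
  have hg' : ∀ x y, g' (x * y) = g' x * g' y := hmul
  have hgq' : ∀ x, g'^[q] x = x := hgq
  refine ⟨R, inferInstance, TT R A, inferInstance, inferInstance, inferInstance,
    inferInstance, alt, tmH R A 1, gr q ζ g', h6, ?_, ?_, ?_, ?_⟩
  · intro x y
    change tm (1 : R) (x * y) = tm (1 : R) x * tm (1 : R) y
    rw [tm_mul, mul_one]
  · rw [injective_iff_map_eq_zero]
    intro a ha
    exact inj q f hf htor a ha
  · refine ⟨fun i j x hx y hy => gr_mul q ζ hζ g' hg' i j x y hx hy, ?_⟩
    rw [eq_top_iff]
    intro x _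
    have h2 : (q : R) • x ∈ ⨆ i, gr q ζ g' i := by
      rw [← sum_pr q hq.pos ζ hζ g' hs x]
      refine Submodule.sum_mem _ fun i hi => ?_
      rw [Finset.mem_range] at hi
      have h3 := pr_mem q ζ hζ g' hgq' (i : ZMod q) x
      rw [ZMod.val_natCast_of_lt hi] at h3
      exact Submodule.mem_iSup_of_mem _ h3
    obtain ⟨v, hv⟩ := hqu
    have h4 := Submodule.smul_mem _ (↑v⁻¹ : R) h2
    rw [smul_smul, ← hv, Units.inv_mul, one_smul] at h4
    exact h4
  · apply le_antisymm
    · intro x hx
      rw [mem_gr, ZMod.val_zero, pow_zero, one_smul] at hx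
      have hk : ∀ k : ℕ, (sg R g' ^ k) x = x := by
        intro k
        induction k with
        | zero => rfl
        | succ k ih => rw [pow_succ, Module.End.mul_apply, hx, ih]
      have h2 : ∀ y : TT R A, ∑ k ∈ Finset.range q, (sg R g' ^ k) y ∈
          Submodule.span R {z | ∃ x : A, g x = x ∧
            z = tmH R A 1 x} := by
        intro y
        induction y using ind with
        | h0 =>
          simp only [map_zero, Finset.sum_const_zero]
          exact Submodule.zero_mem _
        | ha y y' h h' =>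
          simp only [map_add, Finset.sum_add_distrib]
          exact Submodule.add_mem _ h h'
        | ht r a =>
          simp only [sg_pow_tm]
          rw [← tm_sum]
          have h5 : g' (∑ k ∈ Finset.range q, g'^[k] a) = ∑ k ∈ Finset.range q, g'^[k] a := by
            rw [map_sum]
            rw [← sum_shift q (fun k => g'^[k] a) (by rw [hgq']; rfl)]
            refine Finset.sum_congr rfl fun k _ => ?_
            rw [Function.iterate_succ_apply']
          have h6 : tm r (∑ k ∈ Finset.range q, g'^[k] a) =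
              r • (tm (1 : R) (∑ k ∈ Finset.range q, g'^[k] a)) := by
            rw [smul_tm, mul_one]
          rw [h6]
          exact Submodule.smul_mem _ _ (Submodule.subset_span ⟨_, h5, rfl⟩)
      have h3 := h2 x
      simp only [hk, Finset.sum_const, Finset.card_range] at h3
      obtain ⟨v, hv⟩ := hqu
      have h4 := Submodule.smul_mem _ (↑v⁻¹ : R) h3
      rw [← Nat.cast_smul_eq_nsmul R, smul_smul, ← hv, Units.inv_mul, one_smul] at h4
      exact h4
    · rw [Submodule.span_le]
      rintro z ⟨x, hx, rfl⟩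
      rw [SetLike.mem_coe, mem_gr, ZMod.val_zero, pow_zero, one_smul]
      change tm (1 : R) (g x) = tm (1 : R) x
      rw [hx]

end ASF
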