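import Pool.Agent.H71.ASF.Stmts
import Pool.Agent.H71.ASF.Tool2

set_option autoImplicit false

namespace ASF

universe u

namespace KG3

variable {A : Type u} [NonUnitalNonAssocRing A] [Alt A]

theorem DS_nsmul1 (n : ℕ) (u v x : A) : DS (n • u) v x = n • DS u v x := by
  induction n with
  | zero => simp [DS, cm_zero1, asc_zero1]
  | succ n ih => rw [succ_nsmul, DS_add1, ih, succ_nsmul]

theorem DS_nsmul2 (n : ℕ) (u v x : A) : DS u (n • v) x = n • DS u v x := by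
  rw [DS_swap (n • v) u, DS_nsmul1, DS_swap v u x, smul_neg]

theorem th_sym {bi bj : A} (h : cm bi bj = 0) (x : A) : DS bi x bj = DS bj x bi := by
  have h1 := DS_sum bi x bj
  have h2 : DS x bj bi = - DS bj x bi := DS_swap _ _ _
  have h3 : DS bj bi x = - (3 • asc bj bi x) := by
    rw [DS, cm_swap bi bj, h, neg_zero, cm_zero1, zero_sub]
  have h4 : asc bj bi x = asc bi x bj := asc_cyc bj bi x |>.symm
  rw [h2, h3, h4] at h1
  linear_combination (norm := abel) h1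

/-- `E_k` -/
theorem stepE (h1 : KE2Stmt.{u}) [NT A] {bi bj : A} (h : cm bi bj = 0) (bk x y z : A) :
    DS bi (DS bk x (cm bj y)) z - DS bi (cm (DS bk x bj) y) z =
      DS bj (DS bk x (cm bi y)) z - DS bj (cm (DS bk x bi) y) z := by
  have h2 := (h1 A bi bj h (DS bk x y) z).2
  have h3 : cm bj (DS bk x y) = DS bk x (cm bj y) - cm (DS bk x bj) y := by
    rw [(DS_isDer bk x).cm]; abel
  have h4 : cm bi (DS bk x y) = DS bk x (cm bi y) - cm (DS bk x bi) y := by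
    rw [(DS_isDer bk x).cm]; abel
  rw [h3, h4, DS_sub2, DS_sub2] at h2
  exact h2

theorem expA (bi bj bk x y z : A) : DS bi (DS bk x (cm bj y)) z =
    DS bi (cm (cm bk x) (cm bj y)) z - 3 • DS bi (asc bk x (cm bj y)) z := by
  have : DS bk x (cm bj y) = cm (cm bk x) (cm bj y) - 3 • asc bk x (cm bj y) := rfl
  rw [this, DS_sub2, DS_nsmul2]

theorem expQ (h1 : KE2Stmt.{u}) [NT A] {bk bj : A} (h : cm bk bj = 0) (bi x y z : A) :
    DS bi (asc bk x (cm bj y)) z - DS bi (asc bj x (cm bk y)) z =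
      2 • DS x (vv bj bk bi y) z - 2 • DS (dl bj bk y) (cm bi x) z := by
  have h2 := (h1 A bk bj h y x).1
  have h3 : asc bk x (cm bj y) - asc bj x (cm bk y) = - (2 • cm (dl bj bk y) x) := by
    rw [asc_s23 bk (cm bj y) x, asc_s23 bj (cm bk y) x]
    have h4 : dl bk bj y = - dl bj bk y := dl_swap _ _ _
    rw [h4, cm_neg1] at h2
    linear_combination (norm := abel) -h2
  rw [← DS_sub2, h3, DS_neg2, DS_nsmul2, DS_cm2]
  have h5 : DS (cm bi (dl bj bk y)) x z = - DS x (vv bj bk bi y) z := by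
    rw [DS_swap x _ z]; rfl
  have h6 : DS (cm bi x) (dl bj bk y) z = - DS (dl bj bk y) (cm bi x) z := DS_swap _ _ _
  rw [h5, h6]
  abel

theorem expR {bi bk : A} (h : cm bi bk = 0) (x w z : A) :
    DS (cm bi (cm bk x)) w z - DS (cm bk (cm bi x)) w z = - (6 • DS (dl bi bk x) w z) := by
  rw [← DS_sub1, cmcm h, DS_neg1, DS_nsmul1]

end KG3

open KG3 in
theorem kg3 (h1 : KE2Stmt.{u}) : KG3Stmt.{u} := by
  intro A _ _ _ b1 b2 b3 hN x y z
  have c12 : cm b1 b2 = 0 := by rw [cm, hN.h12, hN.h21, sub_zero]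
  have c13 : cm b1 b3 = 0 := by rw [cm, hN.h13, hN.h31, sub_zero]
  have c23 : cm b2 b3 = 0 := by rw [cm, hN.h23, hN.h32, sub_zero]
  have c21 : cm b2 b1 = 0 := by rw [cm, hN.h12, hN.h21, sub_zero]
  have c31 : cm b3 b1 = 0 := by rw [cm, hN.h13, hN.h31, sub_zero]
  have c32 : cm b3 b2 = 0 := by rw [cm, hN.h23, hN.h32, sub_zero]
  have hv1 : vv b2 b3 b1 y = vv b1 b2 b3 y :=
    vv_cyc hN.h12 hN.h21 hN.h13 hN.h31 hN.h23 hN.h32 y
  have hv2 : vv b3 b1 b2 y = vv b2 b3 b1 y :=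
    vv_cyc hN.h23 hN.h32 hN.h21 hN.h12 hN.h31 hN.h13 y
  have E3 := stepE h1 c12 b3 x y z
  have E1 := stepE h1 c23 b1 x y z
  have E2 := stepE h1 c31 b2 x y z
  have B1 : DS b1 (cm (DS b3 x b2) y) z = DS b1 (cm (DS b2 x b3) y) z := by
    rw [th_sym c32]
  have B2 : DS b2 (cm (DS b1 x b3) y) z = DS b2 (cm (DS b3 x b1) y) z := by
    rw [th_sym c13]
  have B3 : DS b3 (cm (DS b2 x b1) y) z = DS b3 (cm (DS b1 x b2) y) z := by
    rw [th_sym c21]
  rw [expA, expA] at E3 E1 E2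
  have Q1 := expQ h1 c32 b1 x y z
  have Q2 := expQ h1 c13 b2 x y z
  have Q3 := expQ h1 c21 b3 x y z
  rw [hv1] at Q1
  rw [hv2, hv1] at Q2
  have P123 := DS_cm2 b1 (cm b3 x) (cm b2 y) z
  have P132 := DS_cm2 b1 (cm b2 x) (cm b3 y) z
  have P231 := DS_cm2 b2 (cm b1 x) (cm b3 y) z
  have P213 := DS_cm2 b2 (cm b3 x) (cm b1 y) z
  have P312 := DS_cm2 b3 (cm b2 x) (cm b1 y) z
  have P321 := DS_cm2 b3 (cm b1 x) (cm b2 y) z
  have R1 := expR c31 x (cm b2 y) z
  have R2 := expR c12 x (cm b3 y) z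
  have R3 := expR c23 x (cm b1 y) z
  have S1 := expR c12 y (cm b3 x) z
  have S2 := expR c23 y (cm b1 x) z
  have S3 := expR c31 y (cm b2 x) z
  apply e6
  linear_combination (norm := abel) -((3 : ℤ) • (Q1 + Q2 + Q3)) - (E1 + E2 + E3) -
    (B1 + B2 + B3) + (P123 + P231 + P312 - P213 - P321 - P132) - (R1 + R2 + R3) - (S1 + S2 + S3)

end ASF
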